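import Pool.Agent.helper25.UC.L3

set_option linter.unusedSectionVars false

/-!
# L4 : the structure of a trap

See the stub `Pool.Agent.helper25.UC.L4` for the plan of the proof.
-/

namespace UC
open Finset
variable {V : Type} [Fintype V] [DecidableEq V] {s k : ℕ}

/-- The structure which coexistence forces.  `e`: leading direction, `x`: refined direction. -/
structure TrapStr (G : SimpleGraph V) [DecidableRel G.Adj] {s : ℕ} (E : ℝ) (σ : V → Fin s)
    (e x : V → ℝ) : Prop where
  E_nonneg : 0 ≤ E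
  e_nonneg : ∀ v, 0 ≤ e v
  x_nonneg : ∀ v, 0 ≤ x v
  e_pos : ∃ v, 0 < e v
  e_zero : ∃ v, e v = 0
  sub : ∀ v, 0 < e v → 0 < x v
  same : ∀ u v, G.Adj u v → 0 < e u → 0 < e v → σ u = σ v
  eig_e : ∀ v, 0 < e v → ∑ u, (if G.Adj v u then e u else 0) = E * e v
  weak_e : ∀ v, e v = 0 → ∀ b : Fin s,
    2 * ∑ u, (if G.Adj v u ∧ σ u = b then e u else 0) ≤ ∑ u, (if G.Adj v u then e u else 0)
  eig_x : ∀ v, 0 < x v → 2 * ∑ u, (if G.Adj v u ∧ σ u = σ v then x u else 0) -
    ∑ u, (if G.Adj v u then x u else 0) = E * x v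
  weak_x : ∀ v, x v = 0 → ∀ b : Fin s,
    2 * ∑ u, (if G.Adj v u ∧ σ u = b then x u else 0) ≤ ∑ u, (if G.Adj v u then x u else 0)
  insul : ∀ u v, G.Adj u v → 0 < e u → e v = 0 → x v = 0
  strict : ∀ u v, G.Adj u v → 0 < e u → x v = 0 → ∀ b : Fin s,
    2 * ∑ w, (if G.Adj v w ∧ σ w = b then x w else 0) < ∑ w, (if G.Adj v w then x w else 0)

variable {G : SimpleGraph V} [DecidableRel G.Adj]

/-- the weights of the refined direction -/
noncomputable def Flag.tw (F : Flag G s (k + 1)) (η : ℝ) (j : Fin (k + 1)) : ℝ := by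
  classical exact if F.E j = F.E 0 then η ^ (j : ℕ) else 0

theorem Flag.tw_pos_aux (F : Flag G s (k + 1)) (y : Fin (k + 1) → ℝ) (j0 : Fin (k + 1))
    (hJ : F.E j0 = F.E 0) (h0 : ∀ i, i < j0 → y i = 0) (hp : 0 < y j0) :
    ∀ᶠ η in nhdsWithin (0 : ℝ) (Set.Ioi 0), 0 < ∑ j, F.tw η j * y j := by
  classical
  let g : ℝ → ℝ := fun η => ∑ j : Fin (k + 1),
    (if F.E j = F.E 0 ∧ j0 ≤ j then η ^ ((j : ℕ) - (j0 : ℕ)) else 0) * y j
  have hg : Continuous g := by
    refine continuous_finsetSum _ fun j _ => ?_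
    refine Continuous.mul ?_ continuous_const
    split_ifs
    · exact continuous_pow _
    · exact continuous_const
  have hg0 : g 0 = y j0 := by
    show ∑ j : Fin (k + 1), (if F.E j = F.E 0 ∧ j0 ≤ j then (0 : ℝ) ^ ((j : ℕ) - (j0 : ℕ))
      else 0) * y j = y j0
    rw [Finset.sum_eq_single j0]
    · simp [hJ]
    · intro j _ hj
      split_ifs with h
      · have hlt : (j0 : ℕ) < (j : ℕ) := lt_of_le_of_ne h.2 (fun h' => hj (Fin.ext h'.symm))
        have : (j : ℕ) - (j0 : ℕ) ≠ 0 := by omega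
        simp [this]
      · simp
    · intro h; exact absurd (Finset.mem_univ _) h
  have hfac : ∀ η : ℝ, ∑ j, F.tw η j * y j = η ^ (j0 : ℕ) * g η := by
    intro η
    show _ = η ^ (j0 : ℕ) * ∑ j : Fin (k + 1),
      (if F.E j = F.E 0 ∧ j0 ≤ j then η ^ ((j : ℕ) - (j0 : ℕ)) else 0) * y j
    rw [Finset.mul_sum]
    refine Finset.sum_congr rfl fun j _ => ?_
    unfold Flag.tw
    by_cases hle : j0 ≤ j
    · by_cases hE : F.E j = F.E 0
      · simp only [hE, hle, and_self, if_true]
        rw [← mul_assoc, ← pow_add]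
        congr 2
        have : (j0 : ℕ) ≤ (j : ℕ) := hle
        omega
      · simp [hE]
    · rw [h0 j (lt_of_not_ge hle)]
      simp
  have hev : ∀ᶠ η in nhds (0 : ℝ), 0 < g η := by
    have := hg.tendsto 0
    rw [hg0] at this
    exact this.eventually (lt_mem_nhds hp)
  filter_upwards [hev.filter_mono nhdsWithin_le_nhds, self_mem_nhdsWithin] with η h1 h2
  rw [hfac]
  have : (0 : ℝ) < η := h2
  positivity

theorem Flag.tw_nonneg_aux (F : Flag G s (k + 1)) (y : Fin (k + 1) → ℝ)
    (h : (∀ j, y j = 0) ∨ ∃ j, 0 < y j ∧ ∀ i, i < j → y i = 0) :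
    ∀ᶠ η in nhdsWithin (0 : ℝ) (Set.Ioi 0), 0 ≤ ∑ j, F.tw η j * y j := by
  classical
  rcases h with h | ⟨j0, hp, h0⟩
  · refine Filter.Eventually.of_forall fun η => ?_
    simp [h]
  · by_cases hJ : F.E j0 = F.E 0
    · filter_upwards [F.tw_pos_aux y j0 hJ h0 hp] with η h1
      exact h1.le
    · refine Filter.Eventually.of_forall fun η => ?_
      refine le_of_eq (Eq.symm (Finset.sum_eq_zero fun j _ => ?_))
      by_cases hE : F.E j = F.E 0
      · have hlt : j < j0 := by
          by_contra hge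
          push Not at hge
          have h1 := F.anti j0 j hge
          have h2 := F.anti 0 j0 (Fin.zero_le _)
          exact hJ (le_antisymm h2 (hE ▸ h1))
        rw [h0 j hlt, mul_zero]
      · unfold Flag.tw
        simp [hE]

theorem L4_Lf_two_sum (σ : V → Fin s) (b : Fin s) (v : V) (x : V → ℝ) :
    Lf G σ b v x = 2 * ∑ u, (if G.Adj v u ∧ σ u = b then x u else 0) -
      ∑ u, (if G.Adj v u then x u else 0) := by
  unfold Lf eps
  rw [Finset.mul_sum, ← Finset.sum_sub_distrib]
  refine Finset.sum_congr rfl fun u _ => ?_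
  by_cases h : G.Adj v u
  · by_cases hb : σ u = b
    · simp [h, hb]; ring
    · have hb' : ¬ b = σ u := fun h' => hb h'.symm
      simp [h, hb, hb']
  · simp [h]

theorem trap_str {f : St V s → ℝ} (hG : G.Connected) (hf : BadF G f) (F : Flag G s (k + 1))
    (τ : ℝ) (hτ : 0 < τ) (hT : Terminal F f) (hN : NoKick F τ) :
    ∃ (E : ℝ) (e x : V → ℝ), TrapStr G E F.σ e x := by
  classical
  have heI : ∀ v, F.e 0 v ≠ 0 → v ∈ F.I := by
    intro v hv
    by_contra hc
    exact hv (F.supp 0 v hc)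
  -- the four eventual statements
  have hP1 : ∀ᶠ η in nhdsWithin (0 : ℝ) (Set.Ioi 0), ∀ v, 0 ≤ ∑ j, F.tw η j * F.e j v := by
    refine Filter.eventually_all.2 fun v => F.tw_nonneg_aux _ ?_
    by_cases hv : v ∈ F.I
    · exact Or.inr (F.cover v hv)
    · exact Or.inl fun j => F.supp j v hv
  have hP2 : ∀ᶠ η in nhdsWithin (0 : ℝ) (Set.Ioi 0), ∀ v, 0 < F.e 0 v →
      0 < ∑ j, F.tw η j * F.e j v := by
    refine Filter.eventually_all.2 fun v => Filter.eventually_imp_distrib_left.2 fun hv =>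
      F.tw_pos_aux (fun j => F.e j v) 0 rfl (fun i hi => absurd hi (Fin.not_lt_zero i)) hv
  have hP3 : ∀ᶠ η in nhdsWithin (0 : ℝ) (Set.Ioi 0), ∀ v, v ∉ F.I → ∀ b : Fin s,
      0 ≤ ∑ j, F.tw η j * (- Lf G F.σ b v (F.e j)) := by
    refine Filter.eventually_all.2 fun v => Filter.eventually_imp_distrib_left.2 fun hv =>
      Filter.eventually_all.2 fun b => F.tw_nonneg_aux _ ?_
    rcases F.bal v hv b with h | ⟨j, h1, h2⟩
    · exact Or.inl fun j => by rw [h j, neg_zero]
    · exact Or.inr ⟨j, by linarith, fun i hi => by rw [h2 i hi, neg_zero]⟩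
  have hP4 : ∀ᶠ η in nhdsWithin (0 : ℝ) (Set.Ioi 0), ∀ t, t ∉ F.I →
      (∃ v, G.Adj t v ∧ F.e 0 v ≠ 0) → ∀ b : Fin s,
      0 < ∑ j, F.tw η j * (- Lf G F.σ b t (F.e j)) := by
    refine Filter.eventually_all.2 fun t => Filter.eventually_imp_distrib_left.2 fun ht =>
      Filter.eventually_imp_distrib_left.2 fun hv => Filter.eventually_all.2 fun b => ?_
    obtain ⟨v, hv1, hv2⟩ := hv
    obtain ⟨j, h1, h2, h3⟩ := strict_outer F τ hτ hN t v ht hv1 hv2 b
    exact F.tw_pos_aux (fun j => - Lf G F.σ b t (F.e j)) j h1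
      (fun i hi => by simp only [h3 i hi, neg_zero]) (by linarith)
  obtain ⟨η, h1, h2, h3, h4⟩ := (hP1.and (hP2.and (hP3.and hP4))).exists
  set x : V → ℝ := fun v => ∑ j, F.tw η j * F.e j v with hx
  have hLf : ∀ (b : Fin s) (v : V), Lf G F.σ b v x = ∑ j, F.tw η j * Lf G F.σ b v (F.e j) :=
    fun b v => Lf_sum F.σ b v (F.tw η) F.e
  have hLf' : ∀ (b : Fin s) (v : V),
      ∑ j, F.tw η j * (- Lf G F.σ b v (F.e j)) = - Lf G F.σ b v x := by
    intro b v
    rw [hLf, ← Finset.sum_neg_distrib]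
    exact Finset.sum_congr rfl fun j _ => by ring
  have hoff : ∀ v, v ∉ F.I → x v = 0 := by
    intro v hv
    show ∑ j, F.tw η j * F.e j v = 0
    exact Finset.sum_eq_zero fun j _ => by rw [F.supp j v hv, mul_zero]
  have hin : ∀ v ∈ F.I, Lf G F.σ (F.σ v) v x = F.E 0 * x v := by
    intro v hv
    rw [hLf]
    show _ = F.E 0 * ∑ j, F.tw η j * F.e j v
    rw [Finset.mul_sum]
    refine Finset.sum_congr rfl fun j _ => ?_
    rw [F.eig j v hv]
    unfold Flag.tw
    split_ifs with h
    · rw [h]; ring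
    · ring
  have he0 := e0_nonneg F
  refine ⟨F.E 0, F.e 0, x, ?_⟩
  refine ⟨F.nonneg 0, he0, h1, exists_e0_pos F, ?_, h2, ?_, ?_, ?_, ?_, ?_, ?_, ?_⟩
  · -- some vertex has `e v = 0`
    by_contra hc
    push Not at hc
    have hsame : ∀ u v, F.σ u = F.σ v := by
      intro u v
      have hr := hG.preconnected u v
      obtain ⟨p⟩ := hr
      induction p with
      | nil => rfl
      | cons h _ ih => exact (adj_same F τ hτ hN _ _ h (hc _) (hc _)).trans ih
    obtain ⟨K, hK⟩ := hT
    obtain ⟨z, hz1, hz2, _⟩ := hK 1 one_pos 1 one_pos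
    have := hf.mono z hz1.1 (fun u v _ _ => by
      rw [(hz1.2.1 u (heI u (hc u))).1, (hz1.2.1 v (heI v (hc v))).1]
      exact hsame u v)
    linarith
  · intro u v huv hu hv
    exact adj_same F τ hτ hN u v huv hu.ne' hv.ne'
  · intro v hv
    have hvI := heI v hv.ne'
    rw [← F.eig 0 v hvI]
    unfold Lf
    refine Finset.sum_congr rfl fun u _ => ?_
    by_cases h : G.Adj v u
    · by_cases hu : F.e 0 u = 0
      · simp [hu]
      · have := adj_same F τ hτ hN v u h hv.ne' hu
        simp [h, this, eps]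
    · simp [h]
  · intro v hv b
    by_cases hvI : v ∈ F.I
    · have hall : ∀ u, G.Adj v u → F.e 0 u = 0 := fun u hu =>
        insulated F τ hτ hN v u hvI hv hu
      have e1 : ∑ u, (if G.Adj v u ∧ F.σ u = b then F.e 0 u else 0) = 0 := by
        refine Finset.sum_eq_zero fun u _ => ?_
        split_ifs with h
        · exact hall u h.1
        · rfl
      have e2 : ∑ u, (if G.Adj v u then F.e 0 u else 0) = 0 := by
        refine Finset.sum_eq_zero fun u _ => ?_
        split_ifs with h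
        · exact hall u h
        · rfl
      rw [e1, e2]; norm_num
    · have hle : Lf G F.σ b v (F.e 0) ≤ 0 := by
        rcases F.bal v hvI b with h | ⟨j, hj1, hj2⟩
        · exact (h 0).le
        · by_cases hj : j = 0
          · rw [← hj]; exact hj1.le
          · exact (hj2 0 (Fin.pos_of_ne_zero hj)).le
      rw [L4_Lf_two_sum] at hle
      linarith
  · intro v hv
    have hvI : v ∈ F.I := by
      by_contra hc
      rw [hoff v hc] at hv
      exact lt_irrefl _ hv
    rw [← L4_Lf_two_sum, hin v hvI]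
  · intro v hv b
    by_cases hvI : v ∈ F.I
    · have h0 := hin v hvI
      rw [hv, mul_zero, L4_Lf_two_sum] at h0
      by_cases hb : b = F.σ v
      · rw [hb]; linarith
      · have hsum : ∑ u, (if G.Adj v u ∧ F.σ u = b then x u else 0) +
            ∑ u, (if G.Adj v u ∧ F.σ u = F.σ v then x u else 0) ≤
            ∑ u, (if G.Adj v u then x u else 0) := by
          rw [← Finset.sum_add_distrib]
          refine Finset.sum_le_sum fun u _ => ?_
          have hxu : 0 ≤ x u := h1 u
          by_cases ha : G.Adj v u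
          · by_cases hc1 : F.σ u = b
            · have hc2 : ¬ F.σ u = F.σ v := fun h' => hb (hc1.symm.trans h')
              have hc3 : ¬ b = F.σ v := hb
              simp [ha, hc1, hc3]
            · by_cases hc2 : F.σ u = F.σ v
              · have hc3 : ¬ F.σ v = b := fun h' => hb h'.symm
                simp [ha, hc2, hc3]
              · simp [ha, hc1, hc2, hxu]
          · simp [ha]
        linarith
    · have := h3 v hvI b
      rw [hLf', L4_Lf_two_sum] at this
      linarith
  · intro u v huv hu hv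
    refine hoff v fun hvI => ?_
    exact hu.ne' (insulated F τ hτ hN v u hvI hv huv.symm)
  · intro u v huv hu hv b
    have hev : F.e 0 v = 0 := by
      by_contra hc
      have : 0 < F.e 0 v := lt_of_le_of_ne (he0 v) (Ne.symm hc)
      have := h2 v this
      have hx0 : ∑ j, F.tw η j * F.e j v = 0 := hv
      linarith
    have hvI : v ∉ F.I := fun hvI =>
      hu.ne' (insulated F τ hτ hN v u hvI hev huv.symm)
    have := h4 v hvI ⟨u, huv.symm, hu.ne'⟩ b
    rw [hLf', L4_Lf_two_sum] at this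
    linarith

end UC
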